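import Mathlib
import Pool.Agent.R819.SepInterp

/-!
# `SC_p([0,1]^m)` does not embed into `SC_p([0,1]^n)` for `n < m`

The evaluations at the points of `[0,1]^n` are `n`-fold iterated limits of the evaluations at the points of
a countable dense set. Let `φ : SC_p([0,1]^m) → SC_p([0,1]^n)` be an embedding. The continuous functions
`e_y ∘ φ`, `y` in a countable dense set of `[0,1]^n`, depend on countably many coordinates only. Let `x` be a
point of `[0,1]^m` which avoids the hyperplanes through these coordinates, and let `D` be a set in the Baire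
space of additive class `n + 1` whose complement is not of this class. There is a family
`θ(α) ∈ SC_p([0,1]^m)`, `α` in the Baire space, such that `θ(α)(x) = χ_D(α)` and `θ(α)(z)` depends
continuously on `α` for each `z` outside of the hyperplanes through `x`. Then all functions
`e_y (φ (θ(α)))` are `n`-fold iterated limits of continuous functions of `α`, and the complement of `D` is
the preimage of a neighbourhood of zero given by finitely many such evaluations, so that it is of additive
class `n + 1`, a contradiction.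
-/

set_option autoImplicit false

open Set Topology Filter TopologicalSpace

namespace Pool.Agent.Results.MP_1441be_gt.NonEmbedding

open Pool.Agent.R819.BaireHier Pool.Agent.R819.SepInterp

/-- separately continuous real functions on `[0,1]^k` -/
def SepCont {k : ℕ} (f : (Fin k → unitInterval) → ℝ) : Prop :=
  ∀ (x : Fin k → unitInterval) (i : Fin k),
    Continuous fun t : unitInterval => f (Function.update x i t)

/-- the space `SC_p([0,1]^k)`: the topology is the subspace topology of the product topology -/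
abbrev SCp (k : ℕ) : Type := {f : (Fin k → unitInterval) → ℝ // SepCont f}

section general

variable {Z : Type*} {p : (Z → ℝ) → Prop}

theorem nhd_basic {O : Set (Subtype p)} (hO : IsOpen O) {f : Subtype p} (hf : f ∈ O) :
    ∃ F : Finset Z, ∃ δ > 0, ∀ f' : Subtype p, (∀ z ∈ F, |f'.1 z - f.1 z| < δ) → f' ∈ O := by
  obtain ⟨W, hW, rfl⟩ := isOpen_induced_iff.1 hO
  obtain ⟨F, u, hu, hF⟩ := isOpen_pi_iff.1 hW f.1 hf
  have h1 : ∀ z ∈ F, ∀ᶠ δ in 𝓝[>] (0 : ℝ), Metric.ball (f.1 z) δ ⊆ u z := by
    intro z hz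
    obtain ⟨ε, hε, h2⟩ := Metric.isOpen_iff.1 (hu z hz).1 _ (hu z hz).2
    filter_upwards [Ioo_mem_nhdsGT hε] with δ hδ
    exact (Metric.ball_subset_ball hδ.2.le).trans h2
  have h2 : ∀ᶠ δ in 𝓝[>] (0 : ℝ), ∀ z ∈ F, Metric.ball (f.1 z) δ ⊆ u z :=
    (Finset.eventually_all F).2 h1
  obtain ⟨δ, hδ, hδ0⟩ := (h2.and self_mem_nhdsWithin).exists
  refine ⟨F, δ, hδ0, fun f' hf' => hF fun z hz => hδ z hz ?_⟩
  rw [Metric.mem_ball, Real.dist_eq]
  exact hf' z hz

/-- continuous functions on a separable dense subspace of a product depend on countably many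
coordinates -/
theorem factor (q : ℕ → Subtype p) (hq : DenseRange q)
    (hint : ∀ (F : Finset Z) (r : Z → ℝ), ∃ f : Subtype p, ∀ z ∈ F, f.1 z = r z)
    {g : Subtype p → ℝ} (hg : Continuous g) :
    ∃ A : Set Z, A.Countable ∧ ∀ (X : Type) [TopologicalSpace X] (θ : X → Subtype p),
      (∀ a ∈ A, Continuous fun x => (θ x).1 a) → Continuous fun x => g (θ x) := by
  classical
  have h0 : ∀ (f : Subtype p) (ε : ℝ), 0 < ε → ∃ F : Finset Z, ∃ δ > 0, ∀ f' : Subtype p,
      (∀ z ∈ F, |f'.1 z - f.1 z| < δ) → |g f' - g f| < ε := by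
    intro f ε hε
    exact nhd_basic (O := {f' | |g f' - g f| < ε})
      (isOpen_lt (continuous_abs.comp (hg.sub continuous_const)) continuous_const)
      (by
        rw [mem_ofPred_eq, sub_self, abs_zero]
        exact hε)
  have h1 : ∀ (i k : ℕ), ∃ F : Finset Z, ∃ δ > 0, ∀ f' : Subtype p,
      (∀ z ∈ F, |f'.1 z - (q i).1 z| < δ) → |g f' - g (q i)| < 1 / ((k : ℝ) + 1) := fun i k =>
    h0 (q i) _ (by positivity)
  choose F δ hδ hF using h1
  let A : Set Z := ⋃ i, ⋃ k, (F i k : Set Z)
  have hFA : ∀ i k, ∀ z ∈ F i k, z ∈ A := fun i k z hz => mem_iUnion₂.2 ⟨i, k, hz⟩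
  refine ⟨A, countable_iUnion fun i => countable_iUnion fun k => (F i k).countable_toSet, ?_⟩
  intro X _ θ hθ
  rw [Metric.continuous_iff']
  intro x0 ε hε
  obtain ⟨G, γ, hγ, hG⟩ := h0 (θ x0) (ε / 3) (by positivity)
  have h2 : ∀ᶠ x in 𝓝 x0, ∀ z ∈ G, z ∈ A → |(θ x).1 z - (θ x0).1 z| < γ := by
    rw [Finset.eventually_all]
    intro z _
    by_cases hzA : z ∈ A
    · have h3 : ContinuousAt (fun x => |(θ x).1 z - (θ x0).1 z|) x0 :=
        (continuous_abs.comp ((hθ z hzA).sub continuous_const)).continuousAt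
      have h4 : ∀ᶠ x in 𝓝 x0, |(θ x).1 z - (θ x0).1 z| < γ := h3.eventually_lt_const (by simpa using hγ)
      exact h4.mono fun x hx _ => hx
    · exact Eventually.of_forall fun x h => absurd h hzA
  filter_upwards [h2] with x hx
  rw [Real.dist_eq]
  obtain ⟨k, hk⟩ := exists_nat_one_div_lt (show (0 : ℝ) < ε / 3 by positivity)
  -- a member of the dense sequence near `θ x`
  have h3 : IsOpen {f' : Subtype p | |g f' - g (θ x)| < ε / 3} :=
    isOpen_lt (continuous_abs.comp (hg.sub continuous_const)) continuous_const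
  have h4 : IsOpen {f' : Subtype p | ∀ z ∈ G, z ∈ A → |f'.1 z - (θ x0).1 z| < γ} := by
    have h5 : {f' : Subtype p | ∀ z ∈ G, z ∈ A → |f'.1 z - (θ x0).1 z| < γ} =
        ⋂ z ∈ G, {f' : Subtype p | z ∈ A → |f'.1 z - (θ x0).1 z| < γ} := by
      ext f'
      simp
    rw [h5]
    refine isOpen_biInter_finset fun z _ => ?_
    by_cases hzA : z ∈ A
    · simp only [hzA, true_imp_iff]
      exact isOpen_lt (continuous_abs.comp
        (((continuous_apply z).comp continuous_subtype_val).sub continuous_const)) continuous_const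
    · simp only [hzA, false_imp_iff]
      exact isOpen_univ
  obtain ⟨i, hi⟩ := hq.exists_mem_open (h3.inter h4) ⟨θ x, by
    rw [mem_ofPred_eq, sub_self, abs_zero]
    positivity, hx⟩
  -- modify it outside of `A`
  obtain ⟨f, hf⟩ := hint (F i k ∪ G) fun z => if z ∈ A then (q i).1 z else (θ x0).1 z
  have h5 : |g f - g (q i)| < 1 / ((k : ℝ) + 1) := by
    refine hF i k f fun z hz => ?_
    rw [hf z (Finset.mem_union_left _ hz), if_pos (hFA i k z hz), sub_self, abs_zero]
    exact hδ i k
  have h6 : |g f - g (θ x0)| < ε / 3 := by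
    refine hG f fun z hz => ?_
    rw [hf z (Finset.mem_union_right _ hz)]
    by_cases hzA : z ∈ A
    · rw [if_pos hzA]
      exact hi.2 z hz hzA
    · rw [if_neg hzA, sub_self, abs_zero]
      exact hγ
  have h7 : |g (q i) - g (θ x)| < ε / 3 := hi.1
  rw [abs_lt] at h5 h6 h7 ⊢
  constructor <;> linarith [h5.1, h5.2, h6.1, h6.2, h7.1, h7.2]

end general

section SCp

variable {k : ℕ}

theorem sepCont_of_continuous {f : (Fin k → unitInterval) → ℝ} (hf : Continuous f) : SepCont f :=
  fun _ i => hf.comp (continuous_const.update i continuous_id)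

/-- a continuous function viewed in `SC_p` -/
def inc (c : C(Fin k → unitInterval, ℝ)) : SCp k := ⟨c, sepCont_of_continuous c.continuous⟩

theorem interp (F : Finset (Fin k → unitInterval)) (r : (Fin k → unitInterval) → ℝ) :
    ∃ c : C(Fin k → unitInterval, ℝ), ∀ z ∈ F, c z = r z := by
  obtain ⟨c, hc⟩ := ContinuousMap.exists_restrict_eq (F.finite_toSet.isClosed)
    (⟨fun z : (F : Set (Fin k → unitInterval)) => r z, continuous_of_discreteTopology⟩ :
      C((F : Set (Fin k → unitInterval)), ℝ))
  refine ⟨c, fun z hz => ?_⟩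
  exact DFunLike.congr_fun hc ⟨z, hz⟩

theorem exists_dense : ∃ q : ℕ → SCp k, DenseRange q := by
  have h1 : Continuous (inc (k := k)) :=
    Continuous.subtype_mk (continuous_pi fun z => continuous_eval_const z) _
  have h2 : DenseRange (inc (k := k)) := by
    intro f
    rw [mem_closure_iff]
    intro O hO hf
    obtain ⟨F, δ, hδ, hF⟩ := nhd_basic hO hf
    obtain ⟨c, hc⟩ := interp F f.1
    refine ⟨inc c, hF _ fun z hz => ?_, c, rfl⟩
    have : (inc c).1 z = f.1 z := hc z hz
    rw [this, sub_self, abs_zero]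
    exact hδ
  exact ⟨_, h2.comp (denseRange_denseSeq _) h1⟩

end SCp

/-- the evaluations on `[0,1]^n` are `n`-fold iterated limits -/
theorem L_eval {X : Type} [TopologicalSpace X] {n : ℕ} {D : Set unitInterval} (hD : Dense D)
    (Φ : X → SCp n) (hΦ : ∀ y : Fin n → unitInterval, (∀ i, y i ∈ D) → Continuous fun x => (Φ x).1 y)
    (j : ℕ) : ∀ y : Fin n → unitInterval, (∀ i : Fin n, j ≤ i → y i ∈ D) →
      L j fun x => (Φ x).1 y := by
  induction j with
  | zero =>
    intro y hy
    exact hΦ y fun i => hy i (Nat.zero_le _)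
  | succ j ih =>
    intro y hy
    by_cases hj : j < n
    · obtain ⟨q, hqD, hq⟩ := mem_closure_iff_seq_limit.1 (hD (y ⟨j, hj⟩))
      refine ⟨fun k x => (Φ x).1 (Function.update y ⟨j, hj⟩ (q k)), fun k => ih _ fun i hi => ?_,
        fun x => ?_⟩
      · by_cases hij : i = ⟨j, hj⟩
        · subst hij
          rw [Function.update_self]
          exact hqD k
        · rw [Function.update_of_ne hij]
          refine hy i ?_
          have : (i : ℕ) ≠ j := fun h => hij (Fin.ext h)
          omega
      · have h1 := ((Φ x).2 y ⟨j, hj⟩).tendsto (y ⟨j, hj⟩)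
        rw [Function.update_eq_self] at h1
        exact h1.comp hq
    · exact L_succ (ih y fun i hi => absurd i.2 (by omega))

/-- **If `n < m` then `SC_p([0,1]^m)` does not embed into `SC_p([0,1]^n)`.** -/
theorem result : ∀ n m : ℕ, n < m → ¬ ∃ φ : SCp m → SCp n, IsEmbedding φ := by
  rintro n m hnm ⟨φ, hφ⟩
  classical
  obtain ⟨q, hq⟩ := exists_dense (k := m)
  have hint : ∀ (F : Finset (Fin m → unitInterval)) (r : (Fin m → unitInterval) → ℝ),
      ∃ f : SCp m, ∀ z ∈ F, f.1 z = r z := by
    intro F r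
    obtain ⟨c, hc⟩ := interp F r
    exact ⟨inc c, hc⟩
  -- the countable dense set and the coordinates
  let D : Set unitInterval := range (denseSeq unitInterval)
  have hD : Dense D := denseRange_denseSeq _
  have hev : ∀ y : Fin n → unitInterval, Continuous fun f : SCp m => (φ f).1 y := fun y =>
    (continuous_apply y).comp (continuous_subtype_val.comp hφ.continuous)
  have h1 : ∀ y : Fin n → unitInterval, ∃ A : Set (Fin m → unitInterval), A.Countable ∧
      ∀ (X : Type) [TopologicalSpace X] (θ : X → SCp m),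
        (∀ a ∈ A, Continuous fun x => (θ x).1 a) → Continuous fun x => (φ (θ x)).1 y := fun y =>
    factor q hq hint (hev y)
  choose A hA hAθ using h1
  let YD : Set (Fin n → unitInterval) := {y | ∀ i, y i ∈ D}
  have hYD : YD.Countable := countable_pi fun _ => countable_range _
  let A' : Set (Fin m → unitInterval) := ⋃ y ∈ YD, A y
  have hA' : A'.Countable := hYD.biUnion fun y _ => hA y
  -- the generic point
  have h2 : ∀ i : Fin m, ∃ s : unitInterval, ∀ a ∈ A', a i ≠ s := by
    intro i
    have h3 : ((fun a : Fin m → unitInterval => a i) '' A').Countable := hA'.image _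
    have h4 : ¬ (univ : Set unitInterval).Countable := by
      intro h
      have h5 : (Icc (0 : ℝ) 1).Countable := by
        have h6 := h.image (Subtype.val : unitInterval → ℝ)
        rwa [image_univ, Subtype.range_coe] at h6
      exact absurd h5 (Cardinal.Real.Icc_countable_iff.not.2 (by norm_num))
    obtain ⟨s, _, hs⟩ := not_subset.1 fun h => h4 (h3.mono h)
    exact ⟨s, fun a ha h => hs ⟨a, ha, h⟩⟩
  choose x hx using h2
  -- the neighbourhoods of zero
  let O1 : Set (SCp m) := {f | |f.1 x| < 1 / 2}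
  have hO1 : IsOpen O1 := isOpen_lt (continuous_abs.comp
    ((continuous_apply x).comp continuous_subtype_val)) continuous_const
  let z0 : SCp m := inc 0
  have hz0 : z0 ∈ O1 := by
    have : z0.1 x = 0 := rfl
    simp only [O1, mem_ofPred_eq, this]
    norm_num
  obtain ⟨V, hV, hVO⟩ := hφ.isOpen_iff.1 hO1
  have hz0V : φ z0 ∈ V := by
    have : z0 ∈ φ ⁻¹' V := by rw [hVO]; exact hz0
    exact this
  obtain ⟨F', δ', hδ', hF'⟩ := nhd_basic hV hz0V
  let O2 : Set (SCp m) := {f | ∀ y ∈ F', |(φ f).1 y - (φ z0).1 y| < δ'}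
  have hO2 : IsOpen O2 := by
    have h5 : O2 = ⋂ y ∈ F', {f : SCp m | |(φ f).1 y - (φ z0).1 y| < δ'} := by
      ext f'
      simp [O2]
    rw [h5]
    exact isOpen_biInter_finset fun y _ =>
      isOpen_lt (continuous_abs.comp ((hev y).sub continuous_const)) continuous_const
  have hz02 : z0 ∈ O2 := fun y _ => by
    rw [sub_self, abs_zero]
    exact hδ'
  have hO21 : O2 ⊆ O1 := by
    intro f hf
    have : f ∈ φ ⁻¹' V := hF' (φ f) hf
    rwa [hVO] at this
  obtain ⟨F, δ, hδ, hF⟩ := nhd_basic hO2 hz02
  -- the cutoff function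
  have hdis : Disjoint ((F.erase x : Finset _) : Set (Fin m → unitInterval)) {x} := by
    rw [disjoint_singleton_right]
    simp
  obtain ⟨κ, hκ0, hκ1, hκ⟩ := exists_continuous_zero_one_of_isClosed
    (F.erase x).finite_toSet.isClosed isClosed_singleton hdis
  -- the family
  obtain ⟨S, hS, hSc⟩ := exists_sig_not_compl n
  obtain ⟨θ, hθs, hθ0, hθc, hθI⟩ := exists_theta m (ind S) (L_mono hnm (L_ind hS))
  let sh : (Fin m → unitInterval) → (Fin m → ℝ) := fun z i => (z i : ℝ) - x i
  have hsh : ∀ z i t, sh (Function.update z i t) = Function.update (sh z) i ((t : ℝ) - x i) := by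
    intro z i t
    funext j
    by_cases hj : j = i
    · subst hj
      simp [sh]
    · simp [sh, Function.update_of_ne hj]
  let Θ : (ℕ → ℕ) → SCp m := fun α => ⟨fun z => κ z * θ α (sh z), by
    intro z i
    refine (κ.continuous.comp (continuous_const.update i continuous_id)).mul ?_
    simp only [hsh]
    exact (hθs α (sh z) i).comp (continuous_subtype_val.sub continuous_const)⟩
  have hΘx : ∀ α, (Θ α).1 x = ind S α := by
    intro α
    have h3 : sh x = 0 := by
      funext i
      simp [sh]
    have h4 : κ x = 1 := hκ1 rfl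
    change κ x * θ α (sh x) = _
    rw [h3, h4, one_mul, hθ0]
  have hΘc : ∀ a ∈ A', Continuous fun α => (Θ α).1 a := by
    intro a ha
    refine continuous_const.mul (hθc _ fun i => ?_)
    simp only [sh]
    rw [sub_ne_zero]
    exact fun h => hx i a ha (Subtype.ext h)
  -- the evaluations of the images
  have h3 : ∀ y : Fin n → unitInterval, (∀ i, y i ∈ D) → Continuous fun α => (φ (Θ α)).1 y := by
    intro y hy
    exact hAθ y _ Θ fun a ha => hΘc a (mem_iUnion₂.2 ⟨y, hy, ha⟩)
  have h4 : ∀ y : Fin n → unitInterval, L n fun α => (φ (Θ α)).1 y := fun y =>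
    L_eval hD (fun α => φ (Θ α)) h3 n y fun i hi => absurd i.2 (by omega)
  have h5 : Sig n {α | ∀ y ∈ F', α ∈ {α | |(φ (Θ α)).1 y - (φ z0).1 y| < δ'}} := by
    refine sig_biInter F' fun y _ => ?_
    have h6 : {α | |(φ (Θ α)).1 y - (φ z0).1 y| < δ'} =
        {α | (φ z0).1 y - δ' < (φ (Θ α)).1 y} ∩ {α | (φ (Θ α)).1 y < (φ z0).1 y + δ'} := by
      ext α
      simp only [mem_ofPred_eq, mem_inter_iff, abs_lt]
      constructor
      · rintro ⟨h, h'⟩
        constructor <;> linarith
      · rintro ⟨h, h'⟩
        constructor <;> linarith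
    rw [h6]
    exact sig_inter (sig_gt (h4 y) _) (sig_lt (h4 y) _)
  refine hSc ?_
  convert h5 using 1
  ext α
  constructor
  · intro hα y hy
    have h7 : Θ α ∈ O2 := by
      refine hF _ fun z hz => ?_
      have h8 : (Θ α).1 z = 0 := by
        by_cases hzx : z = x
        · rw [hzx, hΘx, ind_of_notMem hα]
          rfl
        · have h9 : κ z = 0 := hκ0 (Finset.mem_coe.2 (Finset.mem_erase.2 ⟨hzx, hz⟩))
          change κ z * θ α (sh z) = 0
          rw [h9, zero_mul]
      have h9 : z0.1 z = 0 := rfl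
      rw [h8, h9, sub_zero, abs_zero]
      exact hδ
    exact h7 y hy
  · intro hα hαS
    have h7 : Θ α ∈ O1 := hO21 fun y hy => hα y hy
    have h8 : |(Θ α).1 x| < 1 / 2 := h7
    rw [hΘx, ind_of_mem hαS] at h8
    norm_num at h8

end Pool.Agent.Results.MP_1441be_gt.NonEmbedding
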